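import Pool.Agent.CUB.Member

/-!
MP_125add_co: minimally non-MFMC clutters with a member all of whose elements lie in
complementary pairs.
-/

namespace Pool.Agent.Results.MP_125add_co.Cuboids

open Pool.Agent.MFM Pool.Agent.CUB

/-- Let `C` be a minimally non-MFMC clutter with a member `A₀` such that every element `e` of
`A₀` lies in a complementary pair: there is `f ≠ e` such that every member contains exactly one
of `e`, `f`. Then either `tau C 1 = 2` and `nu C 1 < 2`, or every element of the ground set lies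
in a complementary pair, the least value `g` of `tau C W` over the weights `W` with
`nu C W < tau C W` is even, `g ≥ 4`, and the ground set has at least `2 * ((g + 1) ^ 2 + 4)`
elements. -/
theorem result {E : Type*} [DecidableEq E] [Fintype E] (C : Finset (Finset E))
    (_hC : IsClutter C) (hmin : MinNonMFMC C) (A₀ : Finset E) (hA₀ : A₀ ∈ C)
    (hpair : ∀ e ∈ A₀, ∃ f, f ≠ e ∧ ∀ A ∈ C, (A ∩ {e, f}).card = 1) :
    (tau C 1 = 2 ∧ nu C 1 < 2) ∨
      ((∀ e, ∃ f, f ≠ e ∧ ∀ A ∈ C, (A ∩ {e, f}).card = 1) ∧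
      ∃ g : ℕ, Even g ∧ 4 ≤ g ∧ (∀ W, nu C W < tau C W → (g : ℕ∞) ≤ tau C W) ∧
        (∃ W, nu C W < tau C W ∧ tau C W = (g : ℕ∞)) ∧
        2 * ((g + 1) ^ 2 + 4) ≤ Fintype.card E) := by
  obtain ⟨s, hs⟩ := exists_paired hmin hA₀ (fun e he => by
    obtain ⟨f, hf, h⟩ := hpair e he
    exact ⟨f, pr_of_card hf h⟩)
  rcases cuboid hmin hs with h | h
  · exact Or.inl h
  · refine Or.inr ⟨fun e => ⟨s e, hs.ne e, fun A hA => ?_⟩, h⟩
    exact Pr.card ⟨hs.ne e, fun B hB => hs.mem B hB e⟩ hA

end Pool.Agent.Results.MP_125add_co.Cuboids
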