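import Pool.Agent.MFM.Final

/-!
MP_125add_co: the statement of Q1 for clutters whose members have at most four elements
(no hypothesis of idealness is needed).
-/

namespace Pool.Agent.Results.MP_125add_co.FourElementMembers

open Pool.Agent.MFM

/-- Let `C` be a minimally non-MFMC clutter and let `u ≠ v` be such that every member of `C`
contains exactly one of `u`, `v`. If all members of `C` have at most four elements, then
`tau C 1 = 2` and `nu C 1 < 2`. -/
theorem result {E : Type*} [DecidableEq E] [Fintype E] (C : Finset (Finset E))
    (_hC : IsClutter C) (hmin : MinNonMFMC C) (u v : E) (huv : u ≠ v)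
    (hpair : ∀ A ∈ C, (A ∩ {u, v}).card = 1) (h4 : ∀ A ∈ C, A.card ≤ 4) :
    tau C 1 = 2 ∧ nu C 1 < 2 :=
  q1_card_four hmin (pair_of_card huv hpair) h4

end Pool.Agent.Results.MP_125add_co.FourElementMembers
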