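import Pool.Agent.MFM.Final

/-!
MP_125add_co: a size bound for the minimal violating weights of a counterexample to Q1.
-/

namespace Pool.Agent.Results.MP_125add_co.SizeBound

open Pool.Agent.MFM

/-- Let `C` be a minimally non-MFMC clutter, `u ≠ v` such that every member of `C` contains
exactly one of `u`, `v`, and let `W` be a componentwise minimal weight with
`nu C W < tau C W`. Then either `W = 1` and `tau C 1 = 2`, or `tau C W ≥ 3` and
`W(E) ≥ 4 * tau C W`. -/
theorem result {E : Type*} [DecidableEq E] [Fintype E] (C : Finset (Finset E))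
    (_hC : IsClutter C) (hmin : MinNonMFMC C) (u v : E) (huv : u ≠ v)
    (hpair : ∀ A ∈ C, (A ∩ {u, v}).card = 1) (W : E → ℕ) (hW : nu C W < tau C W)
    (hWmin : ∀ W' : E → ℕ, W' ≤ W → W' ≠ W → nu C W' = tau C W') :
    (W = 1 ∧ tau C W = 2) ∨
    (3 ≤ tau C W ∧ 4 * tau C W ≤ ((∑ e, W e : ℕ) : ℕ∞)) :=
  size_bound hmin (pair_of_card huv hpair) hW hWmin

end Pool.Agent.Results.MP_125add_co.SizeBound
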